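import Mathlib

set_option autoImplicit false

/-!
# Reset thresholds of synchronizing automata with transition monoid in DS

We prove `C_DS(n) = n - 1`. Idea for the upper bound: let `V` be the space of vectors on the state
set with sum zero. If the transition monoid lies in DS, then the elements which do not act as zero
on a given simple subquotient of `V` form a submonoid; hence every composition factor of `V` is
annihilated by a single letter, and there are at most `n - 1` composition factors.
-/

namespace Pool.Agent.Results.MP_305c6f_lc.ExactValue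

/-- The two-sided ideal `MxM`. -/
def ideal {M : Type} [Monoid M] (x : M) : Set M := {y | ∃ a b : M, y = a * x * b}

/-- The class DS: `MxM = MyM = MzM = MtM = MxyM` implies `MxyM = MztM`. -/
def InDS (M : Type) [Monoid M] : Prop :=
  ∀ x y z t : M, ideal x = ideal y → ideal y = ideal z → ideal z = ideal t →
    ideal t = ideal (x * y) → ideal (x * y) = ideal (z * t)

/-- The action of words. -/
def act {Q A : Type} (δ : Q → A → Q) (q : Q) (w : List A) : Q := w.foldl δ q

/-- `w` is a reset word. -/
def IsReset {Q A : Type} (δ : Q → A → Q) (w : List A) : Prop := ∃ p, ∀ q, act δ q w = p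

theorem act_append {Q A : Type} (δ : Q → A → Q) (q : Q) (u v : List A) :
    act δ q (u ++ v) = act δ (act δ q u) v := by
  simp [act, List.foldl_append]

/-- The transition monoid: the monoid (under composition) of all maps `q ↦ q · w`. -/
def transitionMonoid {Q A : Type} (δ : Q → A → Q) : Submonoid (Function.End Q) where
  carrier := {f | ∃ w : List A, ∀ q, f q = act δ q w}
  one_mem' := ⟨[], fun _ => rfl⟩
  mul_mem' := by
    rintro f g ⟨u, hu⟩ ⟨v, hv⟩
    refine ⟨v ++ u, fun q => ?_⟩
    rw [act_append, ← hv, ← hu]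
    rfl

section ideals

variable {M : Type} [Monoid M]

theorem self_mem_ideal (x : M) : x ∈ ideal x := ⟨1, 1, by simp⟩

theorem ideal_sub {x y : M} (h : x ∈ ideal y) : ideal x ⊆ ideal y := by
  obtain ⟨a, b, rfl⟩ := h
  rintro _ ⟨c, d, rfl⟩
  exact ⟨c * a, b * d, by simp [mul_assoc]⟩

theorem ideal_eq {x y : M} (h1 : x ∈ ideal y) (h2 : y ∈ ideal x) : ideal x = ideal y :=
  Set.Subset.antisymm (ideal_sub h1) (ideal_sub h2)

end ideals

section key

variable {M : Type} [Monoid M] [Finite M] {k : Type} [Field k]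

/-- In a monoid in DS, the elements which do not annihilate a simple submodule are closed under
products. -/
theorem mul_ne {V : Type} [AddCommGroup V] [Module k V] (hDS : InDS M)
    (ρ : M →* Module.End k V) (W : Submodule k V) (hinv : ∀ m, ∀ w ∈ W, ρ m w ∈ W)
    (hmin : ∀ U : Submodule k V, U ≤ W → (∀ m, ∀ w ∈ U, ρ m w ∈ U) → U ≠ ⊥ → U = W)
    {x y : M} (hx : ∃ w ∈ W, ρ x w ≠ 0) (hy : ∃ w ∈ W, ρ y w ≠ 0) :
    ∃ w ∈ W, ρ (x * y) w ≠ 0 := by
  -- simplicity
  have hA : ∀ v ∈ W, v ≠ 0 → ∀ m : M, (∃ w ∈ W, ρ m w ≠ 0) → ∃ a, ρ (m * a) v ≠ 0 := by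
    intro v hv hv0 m hm
    by_contra hcon
    push Not at hcon
    obtain ⟨w, hw, hmw⟩ := hm
    let U : Submodule k V := Submodule.span k (Set.range fun a : M => ρ a v)
    have hUW : U ≤ W := by
      rw [Submodule.span_le]
      rintro _ ⟨a, rfl⟩
      exact hinv a v hv
    have hUinv : ∀ m, ∀ w ∈ U, ρ m w ∈ U := by
      intro m w hw
      induction hw using Submodule.span_induction with
      | mem x hx =>
        obtain ⟨a, rfl⟩ := hx
        refine Submodule.subset_span ⟨m * a, ?_⟩
        simp [map_mul]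
      | zero => rw [map_zero]; exact U.zero_mem
      | add x y _ _ h1 h2 => rw [map_add]; exact U.add_mem h1 h2
      | smul c x _ h => rw [map_smul]; exact U.smul_mem c h
    have hU0 : U ≠ ⊥ := by
      intro h
      have : v ∈ U := Submodule.subset_span ⟨1, by simp⟩
      rw [h, Submodule.mem_bot] at this
      exact hv0 this
    have hUeq := hmin U hUW hUinv hU0
    rw [← hUeq] at hw
    apply hmw
    clear hmw
    induction hw using Submodule.span_induction with
    | mem x hx =>
      obtain ⟨a, rfl⟩ := hx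
      have := hcon a
      rw [map_mul] at this
      exact this
    | zero => rw [map_zero]
    | add x y _ _ h1 h2 => rw [map_add, h1, h2, add_zero]
    | smul c x _ h => rw [map_smul, h, smul_zero]
  let N : Set M := {m | ∃ w ∈ W, ρ m w ≠ 0}
  -- a minimal element
  obtain ⟨m, hmN, hmmin⟩ : ∃ m ∈ N, ∀ z ∈ N, ideal z ⊆ ideal m → ideal m ⊆ ideal z := by
    have hfin : (ideal '' N).Finite := Set.toFinite _
    obtain ⟨I, hI⟩ := hfin.exists_minimal ⟨_, x, hx, rfl⟩
    obtain ⟨m, hm, rfl⟩ := hI.1
    exact ⟨m, hm, fun z hz h => hI.2 ⟨z, hz, rfl⟩ h⟩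
  obtain ⟨v0, hv0, hmv0⟩ := hmN
  have hsand : ∀ x ∈ N, ∃ a b : M, ideal (m * a * x * b * m) = ideal m ∧
      m * a * x * b * m ∈ N := by
    intro x hx
    obtain ⟨b, hb⟩ := hA (ρ m v0) (hinv m v0 hv0) hmv0 x hx
    obtain ⟨a, ha⟩ := hA _ (hinv (x * b) _ (hinv m v0 hv0)) hb m ⟨v0, hv0, hmv0⟩
    have h1 : m * a * x * b * m ∈ N := by
      refine ⟨v0, hv0, ?_⟩
      have e : ρ (m * a * x * b * m) v0 = ρ (m * a) (ρ (x * b) (ρ m v0)) := by
        simp [map_mul, mul_assoc]
      rw [e]
      exact ha
    have h2 : ideal (m * a * x * b * m) ⊆ ideal m := ideal_sub ⟨m * a * x * b, 1, by simp⟩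
    exact ⟨a, b, Set.Subset.antisymm h2 (hmmin _ h1 h2), h1⟩
  have hclass : ∀ z t : M, ideal z = ideal m → ideal t = ideal m → ideal (z * t) = ideal m := by
    obtain ⟨a, b, hab, _⟩ := hsand 1 ⟨v0, hv0, by
      intro h
      rw [map_one] at h
      have h' : v0 = 0 := h
      rw [h', map_zero] at hmv0
      exact hmv0 rfl⟩
    have e1 : ideal (m * (a * b)) = ideal m := by
      refine Set.Subset.antisymm (ideal_sub ⟨1, a * b, by simp⟩) ?_
      rw [← hab]
      exact ideal_sub ⟨1, m, by simp [mul_assoc]⟩
    have e2 : ideal ((m * (a * b)) * m) = ideal m := by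
      rw [← hab]; simp [mul_assoc]
    intro z t hz ht
    have := hDS (m * (a * b)) m z t e1 hz.symm (hz.trans ht.symm) (ht.trans e2.symm)
    rw [← this, e2]
  obtain ⟨a, b, hab, _⟩ := hsand x hx
  obtain ⟨a', b', hab', _⟩ := hsand y hy
  have e1 : ideal (m * a * x) = ideal m := by
    refine Set.Subset.antisymm (ideal_sub ⟨1, a * x, by simp [mul_assoc]⟩) ?_
    rw [← hab]
    exact ideal_sub ⟨1, b * m, by simp [mul_assoc]⟩
  have e2 : ideal (y * b' * m) = ideal m := by
    refine Set.Subset.antisymm (ideal_sub ⟨y * b', 1, by simp [mul_assoc]⟩) ?_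
    rw [← hab']
    exact ideal_sub ⟨m * a', 1, by simp [mul_assoc]⟩
  have e3 := hclass _ _ e1 e2
  have h1 : m ∈ ideal (m * a * x * (y * b' * m)) := by
    rw [e3]; exact self_mem_ideal m
  obtain ⟨p, q, hpq⟩ := h1
  refine ⟨ρ (b' * m * q) v0, hinv _ _ hv0, ?_⟩
  intro h
  apply hmv0
  have e : ρ m v0 = ρ (p * (m * a)) (ρ (x * y) (ρ (b' * m * q) v0)) := by
    conv_lhs => rw [hpq]
    simp [map_mul, mul_assoc]
  rw [e, h, map_zero]

/-- In a monoid in DS generated by `S` which contains an element acting as zero, some product of at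
most `dim V` elements of `S` acts as zero. -/
theorem short_zero (hDS : InDS M) (S : Set M) (hS : Submonoid.closure S = ⊤) (c : M) :
    ∀ (d : ℕ) (V : Type) [AddCommGroup V] [Module k V] [FiniteDimensional k V]
      (ρ : M →* Module.End k V), ρ c = 0 → Module.finrank k V = d →
      ∃ l : List M, (∀ x ∈ l, x ∈ S) ∧ l.length ≤ d ∧ ρ l.prod = 0 := by
  intro d
  induction d using Nat.strong_induction_on with
  | _ d ih =>
    intro V _ _ _ ρ hc hd
    rcases Nat.eq_zero_or_pos d with rfl | hpos
    · refine ⟨[], by simp, by simp, ?_⟩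
      have : Subsingleton V := Module.finrank_zero_iff.1 hd
      exact Subsingleton.elim _ _
    · -- a minimal invariant submodule
      let P : Set (Submodule k V) := {W | W ≠ ⊥ ∧ ∀ m, ∀ w ∈ W, ρ m w ∈ W}
      have hne : P.Nonempty := by
        have : Nontrivial V := Module.nontrivial_of_finrank_pos (R := k) (by omega)
        exact ⟨⊤, top_ne_bot, fun _ _ _ => Submodule.mem_top⟩
      obtain ⟨W, ⟨hW0, hWinv⟩, hWmin⟩ := WellFounded.has_min
        (wellFounded_lt (α := Submodule k V)) P hne
      have hmin : ∀ U : Submodule k V, U ≤ W → (∀ m, ∀ w ∈ U, ρ m w ∈ U) → U ≠ ⊥ → U = W := by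
        intro U hUW hU hU0
        by_contra hne'
        exact hWmin U ⟨hU0, hU⟩ (lt_of_le_of_ne hUW hne')
      -- a generator which annihilates `W`
      obtain ⟨s, hs, hsW⟩ : ∃ s ∈ S, ∀ w ∈ W, ρ s w = 0 := by
        by_contra hcon
        push Not at hcon
        obtain ⟨w0, hw0, hw00⟩ := Submodule.exists_mem_ne_zero_of_ne_bot hW0
        have hall : ∀ x ∈ Submonoid.closure S, ∃ w ∈ W, ρ x w ≠ 0 := by
          intro x hx
          induction hx using Submonoid.closure_induction with
          | mem x hx => exact hcon x hx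
          | one => exact ⟨w0, hw0, by simpa using hw00⟩
          | mul x y _ _ h1 h2 => exact mul_ne hDS ρ W hWinv hmin h1 h2
        obtain ⟨w, _, hw⟩ := hall c (by rw [hS]; trivial)
        rw [hc] at hw
        exact hw rfl
      -- the quotient
      have hle : ∀ m, W ≤ W.comap (ρ m) := fun m w hw => hWinv m w hw
      let ρ' : M →* Module.End k (V ⧸ W) :=
        { toFun := fun m => W.mapQ W (ρ m) (hle m)
          map_one' := by
            apply LinearMap.ext
            intro v
            obtain ⟨v, rfl⟩ := Submodule.Quotient.mk_surjective W v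
            simp
          map_mul' := by
            intro x y
            apply LinearMap.ext
            intro v
            obtain ⟨v, rfl⟩ := Submodule.Quotient.mk_surjective W v
            simp }
      have hρ' : ∀ m v, ρ' m (Submodule.Quotient.mk v) = Submodule.Quotient.mk (ρ m v) :=
        fun _ _ => rfl
      have hc' : ρ' c = 0 := by
        apply LinearMap.ext
        intro v
        obtain ⟨v, rfl⟩ := Submodule.Quotient.mk_surjective W v
        rw [hρ', hc]
        simp
      have hWpos : 0 < Module.finrank k W := by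
        rw [Nat.pos_iff_ne_zero]
        intro h
        exact hW0 (Submodule.finrank_eq_zero.1 h)
      have hsum := Submodule.finrank_quotient_add_finrank W
      obtain ⟨l, hl1, hl2, hl3⟩ := ih (Module.finrank k (V ⧸ W)) (by omega) (V ⧸ W) ρ' hc' rfl
      refine ⟨s :: l, ?_, ?_, ?_⟩
      · intro x hx
        rcases List.mem_cons.1 hx with rfl | hx
        · exact hs
        · exact hl1 x hx
      · rw [List.length_cons]
        omega
      · apply LinearMap.ext
        intro v
        have h1 : ρ' l.prod (Submodule.Quotient.mk v) = 0 := by rw [hl3]; rfl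
        rw [hρ', Submodule.Quotient.mk_eq_zero] at h1
        rw [List.prod_cons, map_mul]
        exact hsW _ h1

end key

section upper

variable {Q A : Type} (δ : Q → A → Q)

/-- The element of the transition monoid given by a word. -/
def el (w : List A) : transitionMonoid δ := ⟨fun q => act δ q w, w, fun _ => rfl⟩

/-- The underlying map of an element of the transition monoid. -/
def fn (m : transitionMonoid δ) : Q → Q := fun q => m.1 q

theorem fn_mul (m n : transitionMonoid δ) : fn δ (m * n) = fn δ m ∘ fn δ n := rfl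

theorem fn_one : fn δ 1 = id := rfl

theorem fn_el (w : List A) : fn δ (el δ w) = fun q => act δ q w := rfl

theorem el_append (u v : List A) : el δ (u ++ v) = el δ v * el δ u := by
  apply Subtype.ext
  funext q
  exact act_append δ q u v

/-- The generators given by the letters. -/
def letters : Set (transitionMonoid δ) := {m | ∃ a : A, m = el δ [a]}

theorem closure_letters : Submonoid.closure (letters δ) = ⊤ := by
  rw [eq_top_iff]
  rintro ⟨f, w, hw⟩ -
  have h : (⟨f, w, hw⟩ : transitionMonoid δ) = el δ w := by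
    apply Subtype.ext
    funext q
    exact hw q
  rw [h]
  clear h hw
  induction w with
  | nil => exact Submonoid.one_mem _
  | cons a w ih =>
    have : el δ (a :: w) = el δ w * el δ [a] := el_append δ [a] w
    rw [this]
    exact Submonoid.mul_mem _ ih (Submonoid.subset_closure ⟨a, rfl⟩)

theorem word_of_list (l : List (transitionMonoid δ)) (hl : ∀ x ∈ l, x ∈ letters δ) :
    ∃ w : List A, w.length = l.length ∧ l.prod = el δ w := by
  induction l with
  | nil => exact ⟨[], rfl, rfl⟩
  | cons x l ih =>
    obtain ⟨w, h1, h2⟩ := ih (fun y hy => hl y (List.mem_cons_of_mem _ hy))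
    obtain ⟨a, rfl⟩ := hl x List.mem_cons_self
    refine ⟨w ++ [a], by simp [h1], ?_⟩
    rw [List.prod_cons, h2, el_append]

/-- The upper bound. -/
theorem upper [Fintype Q] (hDS : InDS (transitionMonoid δ)) (w₀ : List A) (h₀ : IsReset δ w₀) :
    ∃ w, IsReset δ w ∧ w.length ≤ Fintype.card Q - 1 := by
  classical
  obtain ⟨p₀, hp₀⟩ := h₀
  rcases isEmpty_or_nonempty Q with hQ | hQ
  · exact ⟨[], ⟨p₀, fun q => (hQ.false q).elim⟩, by simp⟩
  have : Finite (transitionMonoid δ) := by
    have : Finite (Function.End Q) := inferInstanceAs (Finite (Q → Q))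
    infer_instance
  let tot : (Q →₀ ℚ) →ₗ[ℚ] (Unit →₀ ℚ) := Finsupp.lmapDomain ℚ ℚ (fun _ : Q => ())
  let V : Submodule ℚ (Q →₀ ℚ) := LinearMap.ker tot
  have hV : ∀ x, x ∈ V ↔ Finsupp.mapDomain (fun _ : Q => ()) x = 0 := fun x => Iff.rfl
  have hinv : ∀ (m : transitionMonoid δ), ∀ x ∈ V, Finsupp.lmapDomain ℚ ℚ (fn δ m) x ∈ V := by
    intro m x hx
    rw [hV] at hx ⊢
    rw [Finsupp.lmapDomain_apply, ← Finsupp.mapDomain_comp]
    exact hx
  let ρ : transitionMonoid δ →* Module.End ℚ V :=
    { toFun := fun m => (Finsupp.lmapDomain ℚ ℚ (fn δ m)).restrict (hinv m)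
      map_one' := by
        apply LinearMap.ext
        intro x
        apply Subtype.ext
        rw [LinearMap.coe_restrict_apply]
        rw [fn_one]
        exact Finsupp.mapDomain_id
      map_mul' := by
        intro m n
        apply LinearMap.ext
        intro x
        apply Subtype.ext
        rw [LinearMap.coe_restrict_apply, Module.End.mul_apply, LinearMap.coe_restrict_apply,
          LinearMap.coe_restrict_apply, Finsupp.lmapDomain_apply, Finsupp.lmapDomain_apply,
          Finsupp.lmapDomain_apply, ← Finsupp.mapDomain_comp, fn_mul] }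
  have hρ : ∀ (m : transitionMonoid δ) (x : V), (ρ m x : Q →₀ ℚ) = Finsupp.mapDomain (fn δ m) x.1 :=
    fun _ _ => rfl
  have hc : ρ (el δ w₀) = 0 := by
    apply LinearMap.ext
    intro x
    apply Subtype.ext
    rw [hρ]
    have h1 : fn δ (el δ w₀) = (fun _ : Unit => p₀) ∘ (fun _ : Q => ()) := by
      funext q
      exact hp₀ q
    have h2 : Finsupp.mapDomain (fun _ : Q => ()) x.1 = 0 := (hV _).1 x.2
    rw [h1, Finsupp.mapDomain_comp, h2, Finsupp.mapDomain_zero]
    rfl
  have hfr : Module.finrank ℚ V = Fintype.card Q - 1 := by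
    have h1 := LinearMap.finrank_range_add_finrank_ker tot
    have h2 : LinearMap.range tot = ⊤ := by
      rw [LinearMap.range_eq_top]
      intro y
      obtain ⟨q⟩ := hQ
      refine ⟨Finsupp.single q (y ()), ?_⟩
      change Finsupp.mapDomain _ _ = _
      rw [Finsupp.mapDomain_single]
      ext
      simp
    rw [h2, finrank_top, Module.finrank_finsupp_self, Module.finrank_finsupp_self,
      Fintype.card_unit] at h1
    change Module.finrank ℚ (LinearMap.ker tot) = _
    omega
  obtain ⟨l, hl1, hl2, hl3⟩ := short_zero hDS (letters δ) (closure_letters δ) (el δ w₀) _ V ρ hc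
    hfr
  obtain ⟨w, hw1, hw2⟩ := word_of_list δ l hl1
  refine ⟨w, ?_, by omega⟩
  obtain ⟨q₀⟩ := hQ
  refine ⟨act δ q₀ w, fun q => ?_⟩
  let x : Q →₀ ℚ := Finsupp.single q 1 - Finsupp.single q₀ 1
  have hx : x ∈ V := by
    rw [hV]
    have : Finsupp.mapDomain (fun _ : Q => ()) x =
        Finsupp.lmapDomain ℚ ℚ (fun _ : Q => ()) x := rfl
    rw [this, map_sub, Finsupp.lmapDomain_apply, Finsupp.lmapDomain_apply,
      Finsupp.mapDomain_single, Finsupp.mapDomain_single, sub_self]
  have h1 : (ρ l.prod ⟨x, hx⟩ : Q →₀ ℚ) = 0 := by rw [hl3]; rfl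
  rw [hρ, hw2] at h1
  have h2 : Finsupp.lmapDomain ℚ ℚ (fn δ (el δ w)) x = 0 := h1
  rw [map_sub, Finsupp.lmapDomain_apply, Finsupp.lmapDomain_apply,
    Finsupp.mapDomain_single, Finsupp.mapDomain_single, sub_eq_zero] at h2
  have h3 := (Finsupp.single_left_inj (one_ne_zero (α := ℚ))).1 h2
  exact h3

end upper

section lower

theorem inDS_of_comm (M : Type) [Monoid M] (hcomm : ∀ x y : M, x * y = y * x) : InDS M := by
  have key : ∀ x y z t : M, x ∈ ideal z → y ∈ ideal t → x * y ∈ ideal (z * t) := by
    rintro _ _ z t ⟨a, b, rfl⟩ ⟨c, d, rfl⟩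
    refine ⟨a * b, c * d, ?_⟩
    have e1 : a * z * b = a * b * z := by rw [mul_assoc, hcomm z b, ← mul_assoc]
    have e2 : c * t * d = t * (c * d) := by rw [hcomm c t, mul_assoc]
    rw [e1, e2]
    simp [mul_assoc]
  intro x y z t h1 h2 h3 _
  have hx : x ∈ ideal z := by rw [← h2, ← h1]; exact self_mem_ideal x
  have hz : z ∈ ideal x := by rw [h1, h2]; exact self_mem_ideal z
  have hy : y ∈ ideal t := by rw [← h3, ← h2]; exact self_mem_ideal y
  have ht : t ∈ ideal y := by rw [h2, h3]; exact self_mem_ideal t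
  exact ideal_eq (key _ _ _ _ hx hy) (key _ _ _ _ hz ht)

/-- The automaton with one letter. -/
def chain (n : ℕ) (i : Fin (n + 1)) (_ : Unit) : Fin (n + 1) :=
  ⟨min (i.1 + 1) n, by omega⟩

theorem act_chain (n : ℕ) (i : Fin (n + 1)) (w : List Unit) :
    (act (chain n) i w).1 = min (i.1 + w.length) n := by
  induction w generalizing i with
  | nil =>
    have := i.2
    change i.1 = _
    simp only [List.length_nil]
    omega
  | cons a w ih =>
    change (act (chain n) (chain n i a) w).1 = _
    rw [ih]
    simp only [chain, List.length_cons]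
    omega

theorem chain_ds (n : ℕ) : InDS (transitionMonoid (chain n)) := by
  apply inDS_of_comm
  rintro ⟨f, u, hu⟩ ⟨g, v, hv⟩
  apply Subtype.ext
  funext q
  change f (g q) = g (f q)
  rw [hu, hv, hu, hv, ← act_append, ← act_append]
  apply Fin.ext
  rw [act_chain, act_chain, List.length_append, List.length_append, add_comm u.length]

end lower

/-- **`C_DS(n) = n - 1`.** For every `n ≥ 1`, the number `n - 1` is the largest length of a
shortest reset word of a synchronizing automaton with `n` states (over any finite nonempty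
alphabet) whose transition monoid lies in DS. -/
theorem result (n : ℕ) (hn : 1 ≤ n) :
    IsGreatest {ℓ : ℕ | ∃ (Q A : Type) (_ : Fintype Q) (_ : Fintype A) (_ : Nonempty A)
      (δ : Q → A → Q), Fintype.card Q = n ∧ InDS (transitionMonoid δ) ∧
      (∃ w, IsReset δ w ∧ w.length = ℓ) ∧ ∀ w, IsReset δ w → ℓ ≤ w.length} (n - 1) := by
  constructor
  · obtain ⟨n, rfl⟩ : ∃ m, n = m + 1 := ⟨n - 1, by omega⟩
    refine ⟨Fin (n + 1), Unit, inferInstance, inferInstance, inferInstance, chain n, by simp,
      chain_ds n, ⟨List.replicate n (), ⟨⟨n, by omega⟩, fun q => ?_⟩, by simp⟩, ?_⟩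
    · apply Fin.ext
      rw [act_chain, List.length_replicate]
      dsimp only
      omega
    · rintro w ⟨p, hp⟩
      have h1 := congrArg Fin.val (hp ⟨0, by omega⟩)
      have h2 := congrArg Fin.val (hp ⟨n, by omega⟩)
      rw [act_chain] at h1 h2
      dsimp only at h1 h2
      omega
  · rintro ℓ ⟨Q, A, _, _, _, δ, hcard, hDS, ⟨w, hw, rfl⟩, hmin⟩
    obtain ⟨v, hv1, hv2⟩ := upper δ hDS w hw
    rw [hcard] at hv2
    exact (hmin v hv1).trans hv2

end Pool.Agent.Results.MP_305c6f_lc.ExactValue
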